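import Pool.Agent.H25.DynG1
import Pool.Agent.H25.DynG2
import Pool.Agent.H25.DynG3
import Pool.Agent.H25.DynG4
import Pool.Agent.H25.DynG8

/-!
# Stable algebraic families of endomorphisms of `ℙ^N` which are not PCF, for every `N ≥ 3`

The family in dimension `N = M + 3` is
`[u : x : y : z : w] ↦ [u_1 ^ 4 : ... : u_M ^ 4 : G_κ(x, y) : z ^ 4 - 4 w ^ 4 : w ^ 4]`, where `G_κ`
is a homogeneous lift of the flexible Lattès maps of degree four. All members have the same sum of
Lyapunov exponents. All definitions are in `Pool/Agent/H25/DynDefs.lean`.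
-/

namespace Pool.Agent.Results.MP_15f6e2_an.StableNotPCFEveryDimension

open Pool.Agent.H25.Dyn

/-- For every `N ≥ 3` there is an algebraic family of endomorphisms of `ℙ^N` of algebraic degree `4`
which is dynamically stable and not isotrivial, and none of whose members is a Lattès map or
postcritically finite. -/
theorem result : ∀ N : ℕ, 3 ≤ N → ∃ V : Set (Endo N 4), IsAlgebraicFamily V ∧ IsStable V ∧
    ¬ IsIsotrivial V ∧ (∀ f ∈ V, ¬ IsLattes f) ∧ (∀ f ∈ V, ¬ IsPCF f) := by
  intro N hN
  obtain ⟨M, rfl⟩ : ∃ M, N = M + 3 := ⟨N - 3, by omega⟩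
  exact ⟨Gen.FamG M, Gen.FamG_algebraic M, Gen.FamG_stable M, Gen.FamG_not_isotrivial M,
    fun f hf => Gen.not_LattesG hf, fun f hf => Gen.not_PCFG hf⟩

end Pool.Agent.Results.MP_15f6e2_an.StableNotPCFEveryDimension
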